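import Pool.Agent.Q257.Bhargava

/-!
# The Bhargava factorials of prime quadruplets and of twin primes: the conjectured ratio fails for `n = 28`

The twin prime `29` belongs to no prime quadruplet `(q, q + 2, q + 6, q + 8)`. Hence the set `P4` of the primes
in such quadruplets lies in the `28` invertible classes modulo `29`, two of the first `29` elements of every
`29`-ordering of `P4` are congruent modulo `29`, and `29` divides `28!` of `P4`. The twin primes meet all the
`29` classes, so `29` does not divide `28!` of the set of twin primes. The conjectured value `3 w_3(28)` of the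
ratio is not divisible by `29` either.
-/

set_option autoImplicit false

namespace Pool.Agent.Results.MP_38a930_nt.QuadrupletRatioFails

open Finset Q257.Bh

/-- the set of the twin primes: the primes `q` such that `q - 2` or `q + 2` is a prime -/
def P2 : Set ℤ := {x | ∃ q : ℕ, q.Prime ∧ ((q - 2).Prime ∨ (q + 2).Prime) ∧ x = q}

/-- the set of the primes in the prime quadruplets `(q, q + 2, q + 6, q + 8)` -/
def P4 : Set ℤ := {x | ∃ q : ℕ, q.Prime ∧ (q + 2).Prime ∧ (q + 6).Prime ∧ (q + 8).Prime ∧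
  (x = q ∨ x = q + 2 ∨ x = q + 6 ∨ x = q + 8)}

/-- the conjectured value of the ratio of the two factorials: `3 w_3(n)` for even `n`, and `1` for
odd `n` -/
def ratio (n : ℕ) : ℕ := if Even n then 3 * w 3 n else 1

/-- the first members of eight quadruplets -/
def T4 : Finset ℕ := {5, 11, 101, 191, 821, 1481, 1871, 2081}

/-- the thirty members of these quadruplets -/
def S4 : Finset ℤ := T4.biUnion fun q => {(q : ℤ), (q : ℤ) + 2, (q : ℤ) + 6, (q : ℤ) + 8}

/-- twenty-nine twin primes, one in each class modulo `29` -/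
def S2 : Finset ℕ := {3, 5, 7, 11, 13, 17, 19, 29, 31, 41, 43, 59, 73, 103, 107, 109, 137, 139, 149, 151, 199, 227, 229, 241, 269, 271, 347, 433, 569}

lemma hS4 : ∀ s ∈ S4, s ∈ P4 := by
  intro s hs
  obtain ⟨p, hp, hs⟩ := mem_biUnion.1 hs
  have h : ∀ q ∈ T4, q.Prime ∧ (q + 2).Prime ∧ (q + 6).Prime ∧ (q + 8).Prime := by
    unfold T4
    intro q hq
    simp only [mem_insert, mem_singleton] at hq
    rcases hq with rfl | rfl | rfl | rfl | rfl | rfl | rfl | rfl <;> norm_num
  simp only [mem_insert, mem_singleton] at hs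
  exact ⟨p, (h p hp).1, (h p hp).2.1, (h p hp).2.2.1, (h p hp).2.2.2, hs⟩

lemma hS2 : ∀ s ∈ S2.image (fun q : ℕ => (q : ℤ)), s ∈ P2 := by
  intro s hs
  obtain ⟨q, hq, rfl⟩ := mem_image.1 hs
  have h : ∀ q ∈ S2, q.Prime ∧ ((q - 2).Prime ∨ (q + 2).Prime) := by
    unfold S2
    intro q hq
    simp only [mem_insert, mem_singleton] at hq
    rcases hq with rfl | rfl | rfl | rfl | rfl | rfl | rfl | rfl | rfl | rfl | rfl | rfl | rfl | rfl | rfl | rfl | rfl | rfl | rfl | rfl | rfl | rfl | rfl | rfl | rfl | rfl | rfl | rfl | rfl <;> norm_num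
  exact ⟨q, (h q hq).1, (h q hq).2, rfl⟩

lemma cast_card (S : Finset ℕ) : (S.image (fun q : ℕ => (q : ℤ))).card = S.card :=
  card_image_of_injective _ Nat.cast_injective

lemma hinj : ∀ s ∈ S2.image (fun q : ℕ => (q : ℤ)), ∀ t ∈ S2.image (fun q : ℕ => (q : ℤ)),
    ((29 : ℕ) : ℤ) ∣ s - t → s = t := by
  intro s hs t ht h
  obtain ⟨q, hq, rfl⟩ := mem_image.1 hs
  obtain ⟨r, hr, rfl⟩ := mem_image.1 ht
  have h2 : ∀ q ∈ S2, ∀ r ∈ S2, q % 29 = r % 29 → q = r := by decide
  have h3 : (r : ℤ) ≡ (q : ℤ) [ZMOD (29 : ℕ)] := (Int.modEq_iff_dvd).2 h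
  have h4 : r ≡ q [MOD 29] := (Int.natCast_modEq_iff).1 h3
  have h5 : q % 29 = r % 29 := h4.symm
  rw [h2 q hq r hr h5]

lemma hP4 : ∀ x ∈ P4, ¬ ((29 : ℕ) : ℤ) ∣ x := by
  rintro x ⟨q, hq, hq2, hq6, hq8, h⟩ hd
  have key : ∀ q : ℕ, q.Prime → ((29 : ℕ) : ℤ) ∣ (q : ℤ) → q = 29 := fun q hq h =>
    ((Nat.prime_dvd_prime_iff_eq (by norm_num) hq).1 (Int.natCast_dvd_natCast.1 h)).symm
  rcases h with rfl | rfl | rfl | rfl
  · have := key q hq hd
    subst this
    norm_num at hq6
  · have := key (q + 2) hq2 (by exact_mod_cast hd)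
    obtain rfl : q = 27 := by omega
    norm_num at hq
  · have := key (q + 6) hq6 (by exact_mod_cast hd)
    obtain rfl : q = 23 := by omega
    norm_num at hq2
  · have := key (q + 8) hq8 (by exact_mod_cast hd)
    obtain rfl : q = 21 := by omega
    norm_num at hq

/-- **Theorem.** The Bhargava factorials `28!` of the set `P4` of the primes in prime quadruplets and of the set
of the twin primes are defined, `29` divides the first one and not the second one, and the first one is not
`ratio 28 = 3 w_3(28)` times the second one. -/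
theorem result : (∃ f, IsFactorial P4 28 f) ∧ (∃ g, IsFactorial P2 28 g) ∧
    ∀ f g : ℕ, IsFactorial P4 28 f → IsFactorial P2 28 g →
      29 ∣ f ∧ ¬ 29 ∣ g ∧ f ≠ ratio 28 * g := by
  refine ⟨exists_factorial 28 _ hS4 (by decide),
    exists_factorial 28 _ hS2 (by rw [cast_card]; decide), fun f g hf hg => ?_⟩
  have h29 : Nat.Prime 29 := by norm_num
  have h1 : 29 ∣ f := dvd_factorial h29 hf hP4 (by norm_num)
  have h2 : ¬ 29 ∣ g := not_dvd_factorial h29 hg _ hS2 (by rw [cast_card]; decide) hinj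
  refine ⟨h1, h2, fun h => ?_⟩
  have h3 : ratio 28 = 3 * w 3 28 := by
    unfold ratio
    rw [if_pos (by decide)]
  rw [h, h3, Nat.Prime.dvd_mul h29, Nat.Prime.dvd_mul h29] at h1
  rcases h1 with (h1 | h1) | h1
  · norm_num at h1
  · exact not_dvd_w h29 Nat.prime_three (by norm_num) h1
  · exact h2 h1

end Pool.Agent.Results.MP_38a930_nt.QuadrupletRatioFails
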